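import Pool.Agent.MP_81f5b7_pr.H66.Spec

/-! Rejections need large classes, and the choice of a hub. -/

set_option linter.unusedSectionVars false

namespace Pool.Agent.MP_81f5b7_pr.H66

open Finset
open scoped Classical

namespace REJ

variable {V : Type} [Fintype V] [DecidableEq V]

/-- offered pairs inside a class -/
noncomputable def nw (S : Finset (V → C3)) (B : Finset (Sym2 V)) : ℝ :=
  ∑ x, ∑ y ∈ cls S x, ind (s(x, y) ∈ B)

/-- their number along the process -/
noncomputable def Rj : Finset (V → C3) → List (Finset (Sym2 V)) → ℝ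
  | _, [] => 0
  | S, B :: l => nw S B + Rj (gr S B) l

theorem nw_nonneg (S : Finset (V → C3)) (B : Finset (Sym2 V)) : 0 ≤ nw S B :=
  sum_nonneg fun _ _ => sum_nonneg fun _ _ => ind_nonneg _

theorem Rj_nonneg (S : Finset (V → C3)) (l : List (Finset (Sym2 V))) : 0 ≤ Rj S l := by
  induction l generalizing S with
  | nil => exact le_rfl
  | cons B l ih => exact add_nonneg (nw_nonneg _ _) (ih _)

theorem step {S : Finset (V → C3)} {B : Finset (Sym2 V)} {σ : V → C3} (hB : B.card ≤ 1)
    (h : σ ∈ gr S B) : ((B.filter fun e => ¬e.IsDiag ∧ ¬bi σ e).card : ℝ) ≤ nw S B := by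
  rcases (B.filter fun e => ¬e.IsDiag ∧ ¬bi σ e).eq_empty_or_nonempty with e | ⟨e, he⟩
  · rw [e, card_empty, Nat.cast_zero]
    exact nw_nonneg _ _
  · obtain ⟨he1, -, he2⟩ := mem_filter.1 he
    induction e using Sym2.ind with
    | _ x y =>
      have hBe : B = {s(x, y)} := eq_singleton_iff_unique_mem.2
        ⟨he1, fun f hf => card_le_one.1 hB f hf _ he1⟩
      have h1 : σ x = σ y := by simpa using he2
      have h2 : y ∈ cls S x := mem_cls.2 fun σ' hσ' => (gr_rej (hBe ▸ h) h1 σ' hσ').symm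
      have h3 : ((B.filter fun e => ¬e.IsDiag ∧ ¬bi σ e).card : ℝ) ≤ 1 := by
        exact_mod_cast (card_filter_le _ _).trans hB
      refine h3.trans ((ind_pos he1).ge.trans ?_)
      refine (single_le_sum (f := fun y => ind (s(x, y) ∈ B)) (fun _ _ => ind_nonneg _) h2).trans ?_
      exact single_le_sum (f := fun x => ∑ y ∈ cls S x, ind (s(x, y) ∈ B))
        (fun _ _ => sum_nonneg fun _ _ => ind_nonneg _) (mem_univ x)

theorem mono_le {S : Finset (V → C3)} {l : List (Finset (Sym2 V))} {σ : V → C3} (hl : NM l)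
    (h : σ ∈ run S l) : (mono σ l : ℝ) ≤ Rj S l := by
  induction l generalizing S with
  | nil => simp [mono, Rj]
  | cons B l ih =>
    have h1 := ih (fun C hC => hl C (List.mem_cons_of_mem _ hC)) h
    have h2 := step (hl B List.mem_cons_self) (run_sub _ _ h)
    have e : mono σ (B :: l) = (B.filter fun e => ¬e.IsDiag ∧ ¬bi σ e).card + mono σ l := by
      simp [mono]
    rw [e, Nat.cast_add]
    exact add_le_add h2 h1

theorem nw_mean {q k : ℝ} (h0 : 0 ≤ q) {S : Finset (V → C3)} (h : ∀ v, ((cls S v).card : ℝ) ≤ k) :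
    Ex q univ (nw S) ≤ q * Fintype.card V * k := by
  have e : Ex q univ (nw S) = ∑ x, ∑ _y ∈ cls S x, q := by
    unfold nw
    rw [Ex_sum]
    refine sum_congr rfl fun x _ => ?_
    rw [Ex_sum]
    exact sum_congr rfl fun y _ => Ex_mem (mem_univ _)
  rw [e]
  refine (sum_le_sum (g := fun _ => q * k) fun x _ => ?_).trans (le_of_eq ?_)
  · rw [sum_const, nsmul_eq_mul, mul_comm]
    exact mul_le_mul_of_nonneg_left (h x) h0
  · rw [sum_const, nsmul_eq_mul, card_univ]
    ring

theorem mean {q k : ℝ} (h0 : 0 ≤ q) (h1 : q ≤ 1) (hk : 0 ≤ k) (m : ℕ) (S : Finset (V → C3)) :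
    EL q m (fun l => Rj S l * ind (∀ v, ((cls (run S l) v).card : ℝ) ≤ k)) ≤
      m * q * Fintype.card V * k := by
  induction m generalizing S with
  | zero => simp [Rj]
  | succ m ih =>
    by_cases h : ∀ v, ((cls S v).card : ℝ) ≤ k
    · rw [EL_succ]
      refine (Ex_mono (G := fun B => nw S B + m * q * Fintype.card V * k) h0 h1
        fun B _ => ?_).trans ?_
      · refine le_trans (EL_mono (g := fun l => nw S B + Rj (gr S B) l *
          ind (∀ v, ((cls (run (gr S B) l) v).card : ℝ) ≤ k)) h0 h1 fun l _ => ?_) ?_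
        · change (nw S B + Rj (gr S B) l) * ind (∀ v, ((cls (run (gr S B) l) v).card : ℝ) ≤ k) ≤ _
          rw [add_mul]
          exact add_le_add (mul_le_of_le_one_right (nw_nonneg _ _) (ind_le_one _)) le_rfl
        · rw [EL_add, EL_const]
          exact add_le_add le_rfl (ih _)
      · rw [Ex_add, Ex_const]
        have := nw_mean h0 h
        push_cast
        linarith
    · refine (EL_le h0 h1 (c := 0) fun l _ => ?_).trans (by positivity)
      rw [ind_neg, mul_zero]
      exact fun h' => h fun v =>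
        (Nat.cast_le.2 (card_le_card (cls_mono (run_sub S l) v))).trans (h' v)

end REJ

theorem rowREJ : SREJ := by
  intro V _ _ q m S r k h0 h1 hr hk
  refine (PL_markov (f := fun l => REJ.Rj S l * ind (∀ v, ((cls (run S l) v).card : ℝ) ≤ k)) h0 h1
    hr (fun l _ => mul_nonneg (REJ.Rj_nonneg _ _) (ind_nonneg _)) ?_).trans ?_
  · rintro l - ⟨hl, ⟨σ, hσ, hσ'⟩, h⟩
    rw [ind_pos h, mul_one]
    exact hσ'.trans (REJ.mono_le hl hσ)
  · exact div_le_div_of_nonneg_right (REJ.mean h0 h1 hk m S) hr.le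

theorem rowHUB : SHUB := by
  intro V _ _ τ Z K Γ Q hQ
  have hC : ∀ z : V × C3, ∃ C : Finset V, C.card ≤ K ∧ (Good τ Z K Γ z →
      ∃ χ, Aut τ Z Γ C χ ∧ z.1 ∈ C ∧ χ z.1 = z.2) := fun z => by
    by_cases h : Good τ Z K Γ z
    · obtain ⟨C, χ, h1, h2, h3, h4⟩ := h
      exact ⟨C, h4, fun _ => ⟨χ, h1, h2, h3⟩⟩
    · exact ⟨∅, Nat.zero_le _, fun h' => absurd h' h⟩
  choose C hC1 hC2 using hC
  have hq : (0 : ℝ) < Q.card := Nat.cast_pos.2 hQ.card_pos
  have hs : ∑ u ∈ Q, ((univ.filter fun z => u ∈ C z).card : ℝ) ≤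
      ∑ _u ∈ Q, 3 * (Fintype.card V : ℝ) * K / Q.card := by
    rw [sum_const, nsmul_eq_mul, mul_div_cancel₀ _ hq.ne']
    simp only [card_filter_ind]
    rw [sum_comm]
    refine (sum_le_sum (g := fun _ => (K : ℝ)) fun z _ => ?_).trans (le_of_eq ?_)
    · rw [← card_filter_ind]
      exact Nat.cast_le.2 ((card_le_card fun u hu => (mem_filter.1 hu).2).trans (hC1 z))
    · rw [sum_const, nsmul_eq_mul, card_univ, Fintype.card_prod, Fintype.card_fin]
      push_cast
      ring
  obtain ⟨u, hu, hu'⟩ := exists_le_of_sum_le hQ hs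
  refine ⟨u, hu, le_trans ?_ (add_le_add le_rfl hu')⟩
  have hsub : BadV τ Z K Γ u ⊆ Z ∪ (BadL τ Z K Γ).image Prod.fst ∪
      (univ.filter fun z => u ∈ C z).image Prod.fst := fun v hv => by
    rcases (mem_filter.1 hv).2 with h | ⟨b, hb, h⟩
    · exact mem_union_left _ (mem_union_left _ h)
    · by_cases hg : Good τ Z K Γ (v, b)
      · refine mem_union_right _ (mem_image.2 ⟨(v, b), mem_filter.2 ⟨mem_univ _, ?_⟩, rfl⟩)
        by_contra hu
        obtain ⟨χ, h1, h2, h3⟩ := hC2 _ hg
        exact h ⟨_, χ, h1, h2, h3, hC1 _, hu⟩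
      · exact mem_union_left _ (mem_union_right _
          (mem_image.2 ⟨(v, b), mem_filter.2 ⟨mem_univ _, hb, hg⟩, rfl⟩))
  have h2 := (card_le_card hsub).trans ((card_union_le _ _).trans (add_le_add
    ((card_union_le _ _).trans (add_le_add le_rfl card_image_le)) card_image_le))
  exact_mod_cast h2

end Pool.Agent.MP_81f5b7_pr.H66
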